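import Mathlib
import Pool.Agent.Run7.h413.DN.ZeroSum

/-!
# 3SUM: deep networks whose gates share real values

The input consists of `2 n` distinct integers of absolute value at most `(2 n) ^ 3` (`Valid`); the
question is whether three of them have the sum zero (`zeroSum`). The items of the input are each of
the first `n` numbers, and the list of the last `n` numbers.

*Networks* (`Net`). The nodes carry real numbers of unlimited precision, and **the value of a node
may be used by any number of other nodes**. The gates are leaves (arbitrary real functions of one
item, or of `w` words of length `c log₂ (2 n)`, each of which is an arbitrary function of one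
item), weighted sums of any number of inputs (`lin`), products of two inputs (`mul`), maxima of any
number of inputs (`max`), and symmetric gates (`sym`), whose value is an arbitrary function of the
number of the positive inputs. So deep networks of rectified linear units, threshold gates, minima,
maxima and products are included. A network accepts if the value of the output node is positive.
The inputs of a gate have smaller levels; the depth is at most `d` if all levels are at most `d`
(`DepthLE`).

*Cost.* For each of the first `n` numbers we count the leaves which see it, and the wires which
leave a node that depends on it (`traffic`). The cost is the sum of these numbers. So a wire pays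
the number of those of the first `n` numbers on which its source depends; what depends on the list
of the last `n` numbers only is free.

We show that random networks of depth at most `d` with error probability at most `1 / 3` have cost
`s` with `n ^ 2 log₂ n ≤ 4300 (w c log₂ n + d (d + log₂ n)) s`. So for `d ≤ log₂ n` the cost is at
least of the order `n ^ 2 / (w c + d)`, and it is `n ^ (2 - o (1))` for all depths `d = n ^ o (1)`.

Proof. Each of the first `n` numbers can ask for about `n log₂ n / 7` bits which are encoded in the
list of the last `n` numbers (helper697). Fix all other items (Nechiporuk's method). If `r` leaves
and wires depend on the number, then the other items enter by at most `2 r` real parameters: the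
rest of a weighted sum, the other factor, the maximum of the other inputs, or the possible values
of a symmetric gate. If the values of the nodes of level less than `t` are polynomials of degree at
most `2 ^ t` in the parameters, then Warren's theorem bounds the number of the results of all
comparisons at the next level. In this way one passes through the levels (as in the bounds of
Bartlett, Maiorov and Meir for the VC dimension of networks), and there are at most `(q ^ (w - 1)
(n ^ O (1) 2 ^ d) ^ (2 (d + 2))) ^ r` functions of the number (`Run7.h413.DN.Core`,
`Run7.h413.DN.Sub`).
-/

set_option autoImplicit false

namespace Pool.Agent.Results.MP_8f87b2_lc.DeepNetworks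

open Pool.Agent.TH697.Form (IsProb)
open Pool.Agent.TH697.Row (ApproximatesOn)
open Pool.Agent.TH697.Form.ThreeSum (Item Valid)
open Pool.Agent.TH457.Ary.ZeroSum (zeroSum)
open Run7.h413.DN (Net)
open Run7.h413.DN.ZeroSum (numbers)

theorem result : ∀ n c w d : ℕ, 1000 ≤ n → 1 ≤ c → 1 ≤ w → 1 ≤ d →
    ∀ (Ω : Type) [Fintype Ω] (μ : Ω → ℝ), IsProb μ →
      ∀ (s : ℕ) (C : Ω → Net (Option (Fin n)) (Item n n) w ((2 * n) ^ c)),
        (∀ ω, (C ω).DepthLE d) → (∀ ω, (C ω).cost (numbers n) ≤ s) →
        ApproximatesOn μ (fun ω => (C ω).eval) (Valid n n) (zeroSum n) →
        (n : ℝ) ^ 2 * Real.logb 2 n ≤
          4300 * (w * c * Real.logb 2 n + d * (d + Real.logb 2 n)) * s :=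
  fun _ _ _ _ hn hc hw hd _ _ μ hμ s C hdep hs hC =>
    Run7.h413.DN.ZeroSum.bound hn hc hw hd μ hμ s C hdep hs hC

end Pool.Agent.Results.MP_8f87b2_lc.DeepNetworks
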