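import Mathlib
import Pool.Agent.Run7.h324.SR.Sums

/-!
# 3SUM: circuits in which real numbers are shared

The input consists of `2 n` distinct integers of absolute value at most `(2 n) ^ 3` (`Valid`); is the
sum of three of them (at different places) zero (`zeroSum`)? The items of the input are each of the
first `n` numbers, and the list of the last `n` numbers.

A circuit (`Circ`, `Circuit`) is a sequence of real formulas (`Fml`) of any length and depth. Every
formula computes a real number, of unlimited precision, which may be read by all later formulas, any
number of times. The formulas are built from real constants, arbitrary real functions of one item,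
arbitrary real functions of `w` words of length `c log₂ (2 n)`, where each word is an arbitrary function
of one item, and the shared numbers, by sums, products, sign tests `pos` (with the values `0`, `1`), and
gates `sym` of any fan-in whose value is an arbitrary real function of the number of positive inputs.
The circuit accepts if its last number is positive. Constants and everything that can be computed from
the list of the last `n` numbers alone are free; the price of a reading of one of the first `n` numbers
is one, and the price of a reading of a shared number is the number of those of the first `n` numbers
on which it depends. The cost is the sum of the prices of all readings, plus the number of wires which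
lead to gates `sym`; all other gates are free.

For random circuits with error probability at most `1 / 3` and cost at most `s` we show

1. `n ^ 2 ≤ 1200000 (√(n / log₂ n) + c w) s`, so the cost is at least of order `n ^ (3 / 2) √(log n)`,
   for real numbers of unlimited precision;
2. `n ^ 2 ≤ 400000 (v + c w) s`, if the values of all formulas and of all their subformulas are
   integers of absolute value at most `(2 n) ^ v`, that is, numbers of `v` machine words.

So an algorithm of this kind which makes only `n ^ (2 - ε)` readings must compute with numbers of
about `n ^ ε` words, and for no precision it can make fewer than `n ^ (3 / 2)` readings. In all earlier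
bounds of this kind only bits are shared, or there are no shared values.

Proof. Each of the first `n` numbers can ask for about `n log₂ n / 7` bits which are encoded in the list
of the last `n` numbers (helper697, helper457). Fix the other items. If `r` leaves see the number or
shared numbers which depend on it, then there are `O (r)` places at which the other items enter, and
the unary function at such a place is given by four real parameters. The whole circuit is a decision
procedure with `O (r)` real parameters, `O (r)` sign tests on every path, and polynomials of degree
`2 ^ O (r)`, so that by Warren's theorem (as in the bound of Goldberg and Jerrum for the VC dimension)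
there are `2 ^ O (r (r + log n))` functions of the number; this gives (1). For integers of absolute
value at most `V` the unary functions at these places are determined by `O (log V)` bits; this gives (2)
(`Pool.Agent.Run7.h324.SR`).
-/

set_option autoImplicit false

namespace Pool.Agent.Results.MP_8f87b2_lc.SharedNumbers

open Pool.Agent.TH697.Form (IsProb)
open Pool.Agent.TH697.Row (ApproximatesOn)
open Pool.Agent.TH697.Form.ThreeSum (Item Valid)
open Pool.Agent.TH457.Ary.ZeroSum (zeroSum)
open Pool.Agent.N452.TF.Xor (pairs)
open Pool.Agent.Run7.h324.SR (Circuit IsInt)

theorem result : ∀ n c w : ℕ, 400 ≤ n → 1 ≤ c → 1 ≤ w →
    ∀ (Ω : Type) [Fintype Ω] (μ : Ω → ℝ), IsProb μ →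
      ∀ (s : ℕ) (C : Ω → Circuit (Option (Fin n)) (Item n n) w ((2 * n) ^ c)),
        (∀ ω, (C ω).circ.cost (pairs n) ≤ s) →
        ApproximatesOn μ (fun ω => (C ω).accepts) (Valid n n) (zeroSum n) →
        (n : ℝ) ^ 2 ≤ 1200000 * (√(n / Real.logb 2 n) + c * w) * s ∧
        ∀ v : ℕ, 1 ≤ v →
          (∀ ω x, Valid n n x → (C ω).circ.All (IsInt ((2 * n) ^ v)) x) →
          (n : ℝ) ^ 2 ≤ 400000 * (v + c * w) * s :=
  fun _ _ _ hn hc hw _ _ μ hμ s C hs hC =>
    ⟨Pool.Agent.Run7.h324.SR.Sums.real_glue hn hc hw μ hμ _ _
      (fun _ hb i => Pool.Agent.Y638.RF.ZeroSum.asks hb hn i) s C hs hC,
    fun _ hv hV => Pool.Agent.Run7.h324.SR.Sums.int_glue hn hc hw hv μ hμ _ _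
      (fun _ hb i => Pool.Agent.R562.WFZ.asks hb hn i) s C hs hV hC⟩

end Pool.Agent.Results.MP_8f87b2_lc.SharedNumbers
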