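import Pool.Agent.Run7.h156.CX.Sum

/-!
# 3SUM on sorted lists: few reads and small treewidth, with two-sided error

The input is an INCREASING list of `n` integers between `-n ^ 2` and `n ^ 2`; we ask if three numbers
at different places have sum zero. We consider randomised word circuits (`WordCircuit`, file
`Pool/Agent/Run7/h156/CX/Circ.lean`): the gates hold words (elements of a finite set `Z` with at most
`2 ^ b` elements), every gate computes an ARBITRARY function of at most `κ` numbers of the list and
words of earlier gates. The parameters are

* the number of reads: the number of wires from the numbers of the list to gates,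
* the treewidth `θ` of the graph of the gates (whose edges are the wires between gates).

There is no bound on the number of gates, that is, on the time. The circuit is chosen at random, and
the wires of different circuits need not have anything in common. On every list the answer has to be
correct with probability at least `2 / 3` (two-sided error, as in the definition of the page).

**Results.** (1) If the mean number of reads is at most `r n` then
`n ≤ 2 ^ (272000 r) (κ + 1) (θ + 1) b`.

(2) For every `ε > 0` and all large `n`: if `(κ + 1) (θ + 1) b ≤ n ^ (1 - ε)` then the mean number of
reads is at least `ε / 544000 · n log₂ n`; this is more than the linear number of reads of an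
algorithm that looks at each number `O (1)` times, although the list is already sorted.

The starting results `SortedListsTreewidthTimesReads` and `MP_13bec0_lc.TreewidthTimesReads` are
about circuits which are ALWAYS correct; their proofs use this (fooling sets and unambiguity).

**Proof.** A circuit is cut into `O (r ^ 2)` parts with few reads each by the removal of few gates
(library of the starting result `MP_13bec0_lc.TreewidthTimesReads`). For `m = (n - 1) / 3` and a shift
`τ < m` there is a list whose `i`-th positive number is `11 (3 (i + τ) + a_i) + 1` with `a_i = 1` for
`i` in `x` and `a_i = 0` otherwise, and in which the negative number at distance `i + τ` from the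
middle is `-11 (3 (i + τ) + b_i) - 1` with `b_i = 1` for `i` in `y` and `b_i = 2` otherwise; the number
in the middle is `0` and all other numbers are `3` modulo `11`. The list is increasing and has three
numbers with sum zero if and only if the sets `x` and `y` meet. The shift `τ` is chosen at random: the
two places of a block determine `τ` and the block, so that for almost all blocks the two places are
read in different parts of the circuit, whatever the wiring is. A family of `2 ^ O (r)` sets of parts
separates almost all blocks; for the blocks which are separated by the same set and for fixed values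
of the removed gates, the accepted pairs `(x, y)` form a rectangle, and a corruption bound for set
disjointness, with the constant `13 / 20`, compares the probabilities of the two kinds of inputs.
-/

set_option autoImplicit false

namespace Pool.Agent.Results.MP_8f87b2_lc.TwoSidedReadsTreewidth

open Finset Filter Run7.h156.CX

/-- (1) The explicit bound; (2) the mean number of reads. -/
theorem result :
    (∀ {Z Ω : Type} [Fintype Z] [Fintype Ω] {n κ θ b r : ℕ}, 40 ≤ n → 1 ≤ r → 1 ≤ b →
      ∀ (μ : Ω → ℝ) (C : Ω → WordCircuit (Fin n) ℤ Z),
      (∀ ω, (C ω).FanIn κ) → (∀ ω, (C ω).TreewidthLE θ) → Fintype.card Z ≤ 2 ^ b →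
      ∑ ω, μ ω * (C ω).reads ≤ r * (n : ℝ) → Decides μ C →
      n ≤ 2 ^ (272000 * r) * ((κ + 1) * (θ + 1) * b)) ∧
    (∀ {ε : ℝ}, 0 < ε → ∀ᶠ n : ℕ in atTop,
      ∀ (Z Ω : Type) [Fintype Z] [Fintype Ω] (κ θ b : ℕ) (μ : Ω → ℝ)
        (C : Ω → WordCircuit (Fin n) ℤ Z), 1 ≤ b →
      (∀ ω, (C ω).FanIn κ) → (∀ ω, (C ω).TreewidthLE θ) → Fintype.card Z ≤ 2 ^ b →
      ((κ + 1) * (θ + 1) * b : ℝ) ≤ (n : ℝ) ^ (1 - ε) → Decides μ C →
      ε / 544000 * (n * Real.logb 2 n) ≤ ∑ ω, μ ω * (C ω).reads) :=
  ⟨fun h1 h2 h3 μ C h4 h5 h6 h7 h8 => zero_explicit h1 h2 h3 μ C h4 h5 h6 h7 h8,
    fun hε => zero_reads hε⟩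

end Pool.Agent.Results.MP_8f87b2_lc.TwoSidedReadsTreewidth
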